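import Mathlib

/-!
# Generalized Apéry numbers: definitions and the transfer to integer arithmetic
-/

open MeasureTheory Finset

namespace H439R3.Ap

/-- The generalized Apéry numbers `a_n(r,s) = ∑_{k ≤ n} C(n,k)^r C(n+k,k)^s`, as real numbers. -/
noncomputable def apery (r s : ℕ) (n : ℕ) : ℝ :=
  ∑ k ∈ range (n + 1), (n.choose k : ℝ) ^ r * ((n + k).choose k : ℝ) ^ s

/-- A real sequence is a Stieltjes moment sequence if it is the moment sequence of a (nonnegative
Borel) measure on `[0, ∞)`. -/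
def IsStieltjes (x : ℕ → ℝ) : Prop :=
  ∃ μ : Measure ℝ, μ (Set.Iio 0) = 0 ∧ (∀ n : ℕ, Integrable (fun t : ℝ => t ^ n) μ) ∧
    ∀ n : ℕ, x n = ∫ t : ℝ, t ^ n ∂μ

/-- The log-convexity operator `L(x)_n = x_n x_{n+2} - x_{n+1}^2`. -/
def L {R : Type*} [CommRing R] (x : ℕ → R) : ℕ → R := fun n => x n * x (n + 2) - x (n + 1) ^ 2

/-- `x` is infinitely log-convex if all terms of `L^k(x)` are nonnegative for every `k ≥ 1`. -/
def InfLogConvex (x : ℕ → ℝ) : Prop := ∀ k : ℕ, 1 ≤ k → ∀ n : ℕ, 0 ≤ (L^[k]) x n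

/-! ## Integer version -/

/-- computable binomial coefficient -/
def ch (n k : ℕ) : ℕ := n.descFactorial k / k.factorial

lemma ch_eq (n k : ℕ) : ch n k = n.choose k := by
  unfold ch
  rw [Nat.choose_eq_descFactorial_div_factorial]

/-- partial sums, by recursion -/
def sumTo (f : ℕ → ℕ) : ℕ → ℕ
  | 0 => 0
  | n + 1 => sumTo f n + f n

lemma sumTo_eq (f : ℕ → ℕ) (n : ℕ) : sumTo f n = ∑ k ∈ range n, f k := by
  induction n with
  | zero => simp [sumTo]
  | succ n ih => rw [sumTo, ih, Finset.sum_range_succ]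

/-- the numbers as natural numbers, computable version -/
def ap (r s n : ℕ) : ℕ := sumTo (fun k => ch n k ^ r * ch (n + k) k ^ s) (n + 1)

lemma ap_eq (r s n : ℕ) :
    ap r s n = ∑ k ∈ range (n + 1), n.choose k ^ r * (n + k).choose k ^ s := by
  unfold ap
  rw [sumTo_eq]
  refine Finset.sum_congr rfl fun k _ => ?_
  rw [ch_eq, ch_eq]

lemma apery_eq (r s n : ℕ) : apery r s n = (ap r s n : ℝ) := by
  rw [ap_eq]
  unfold apery
  push_cast
  rfl

/-- the integer valued sequence -/
def apZ (r s n : ℕ) : ℤ := (ap r s n : ℤ)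

lemma apery_eqZ (r s n : ℕ) : apery r s n = ((apZ r s n : ℤ) : ℝ) := by
  rw [apery_eq]; simp [apZ]

lemma L_cast (x : ℕ → ℤ) : L (fun n => ((x n : ℤ) : ℝ)) = fun n => ((L x n : ℤ) : ℝ) := by
  funext n
  simp [L]

lemma Lk_cast (x : ℕ → ℤ) (k : ℕ) :
    (L^[k]) (fun n => ((x n : ℤ) : ℝ)) = fun n => (((L^[k]) x n : ℤ) : ℝ) := by
  induction k generalizing x with
  | zero => rfl
  | succ k ih => rw [Function.iterate_succ_apply, Function.iterate_succ_apply, L_cast, ih]

lemma Lk_apery (r s k n : ℕ) :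
    (L^[k]) (apery r s) n = (((L^[k]) (apZ r s) n : ℤ) : ℝ) := by
  have : apery r s = fun n => ((apZ r s n : ℤ) : ℝ) := funext fun n => apery_eqZ r s n
  rw [this, Lk_cast]

lemma not_inf_of_neg {r s k n : ℕ} (hk : 1 ≤ k) (h : (L^[k]) (apZ r s) n < 0) :
    ¬ InfLogConvex (apery r s) := by
  intro H
  have := H k hk n
  rw [Lk_apery] at this
  have h' : (((L^[k]) (apZ r s) n : ℤ) : ℝ) < 0 := by exact_mod_cast h
  linarith

/-! ## Stieltjes moment sequences: quadratic forms -/

/-- the quadratic form of a vector, at shift `e` -/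
theorem quad_nonneg {x : ℕ → ℝ} (hx : IsStieltjes x) (m : ℕ) (p : ℕ → ℝ) (e : ℕ) :
    0 ≤ ∑ i ∈ range m, ∑ j ∈ range m, p i * p j * x (i + j + e) := by
  obtain ⟨μ, h0, hint, hmom⟩ := hx
  have key : ∑ i ∈ range m, ∑ j ∈ range m, p i * p j * x (i + j + e)
      = ∫ t : ℝ, t ^ e * (∑ i ∈ range m, p i * t ^ i) ^ 2 ∂μ := by
    have h1 : ∀ t : ℝ, t ^ e * (∑ i ∈ range m, p i * t ^ i) ^ 2
        = ∑ i ∈ range m, ∑ j ∈ range m, p i * p j * t ^ (i + j + e) := by
      intro t
      rw [sq, Finset.sum_mul_sum, Finset.mul_sum]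
      refine Finset.sum_congr rfl fun i _ => ?_
      rw [Finset.mul_sum]
      refine Finset.sum_congr rfl fun j _ => ?_
      ring
    simp_rw [h1]
    rw [integral_finset_sum]
    · refine Finset.sum_congr rfl fun i _ => ?_
      rw [integral_finset_sum]
      · refine Finset.sum_congr rfl fun j _ => ?_
        rw [integral_const_mul, hmom]
      · intro j _
        exact (hint _).const_mul _
    · intro i _
      refine integrable_finset_sum _ fun j _ => ?_
      exact (hint _).const_mul _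
  rw [key]
  refine integral_nonneg_of_ae ?_
  have hae : ∀ᵐ t ∂μ, 0 ≤ t := by
    rw [ae_iff]
    have : {a : ℝ | ¬ 0 ≤ a} = Set.Iio 0 := by ext a; simp
    rw [this]; exact h0
  filter_upwards [hae] with t ht
  show (0:ℝ) ≤ _
  positivity

/-- log-convexity -/
theorem logconvex {x : ℕ → ℝ} (hx : IsStieltjes x) (hpos : ∀ n, 0 < x n) (n : ℕ) :
    0 ≤ x n * x (n + 2) - x (n + 1) ^ 2 := by
  have h := quad_nonneg hx 2 (fun i => if i = 0 then x (n + 1) else - x n) n
  simp only [Finset.sum_range_succ, Finset.sum_range_zero, zero_add] at h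
  simp only [one_ne_zero, if_true, if_false] at h
  have e1 : 1 + n = n + 1 := by ring
  have e2 : 1 + 1 + n = n + 2 := by ring
  have e3 : 0 + n = n := by ring
  simp only [add_zero, e1, e2, e3] at h
  have hn := hpos n
  have : 0 ≤ x n * (x n * x (n + 2) - x (n + 1) ^ 2) := by nlinarith
  exact nonneg_of_mul_nonneg_right this hn

end H439R3.Ap
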