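import Pool.Agent.H439R3.Ap.Defs

/-!
# Generalized Apéry numbers: a fast evaluation
-/

open Finset

namespace H439R3.Ap

/-- accumulate the terms, updating both binomial coefficients multiplicatively -/
def go (r s n : ℕ) : ℕ → ℕ → ℕ → ℕ → ℕ → ℕ
  | 0, _, _, _, t => t
  | f + 1, k, c, d, t =>
      go r s n f (k + 1) (c * (n - k) / (k + 1)) (d * (n + k + 1) / (k + 1)) (t + c ^ r * d ^ s)

/-- fast version of `ap` -/
def apF (r s n : ℕ) : ℕ := go r s n (n + 1) 0 1 1 0

lemma go_eq (r s n : ℕ) : ∀ f k t : ℕ, go r s n f k (n.choose k) ((n + k).choose k) t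
    = t + ∑ j ∈ range f, n.choose (k + j) ^ r * (n + (k + j)).choose (k + j) ^ s
  | 0, k, t => by simp [go]
  | f + 1, k, t => by
      have h1 : n.choose k * (n - k) / (k + 1) = n.choose (k + 1) := by
        rw [← Nat.choose_succ_right_eq, Nat.mul_div_cancel _ (Nat.succ_pos k)]
      have h2 : (n + k).choose k * (n + k + 1) / (k + 1) = (n + (k + 1)).choose (k + 1) := by
        rw [mul_comm, Nat.add_one_mul_choose_eq, Nat.mul_div_cancel _ (Nat.succ_pos k)]
        rfl
      rw [go, h1, h2, go_eq r s n f (k + 1), Finset.sum_range_succ', add_assoc]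
      congr 1
      rw [add_comm]
      congr 1
      refine Finset.sum_congr rfl fun j _ => ?_
      rw [show k + 1 + j = k + (j + 1) by ring]

lemma apF_eq (r s n : ℕ) : apF r s n = ap r s n := by
  rw [ap_eq]
  unfold apF
  have h := go_eq r s n (n + 1) 0 0
  simp only [Nat.choose_zero_right, zero_add] at h
  exact h

end H439R3.Ap
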