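import Pool.Agent.H439R3.Ap.Defs

/-!
# Generalized Apéry numbers: finite computations
-/

open Finset

namespace H439R3.Ap

/-- sums of integers by recursion -/
def sumZ (f : ℕ → ℤ) : ℕ → ℤ
  | 0 => 0
  | n + 1 => sumZ f n + f n

lemma sumZ_eq (f : ℕ → ℤ) (n : ℕ) : sumZ f n = ∑ k ∈ range n, f k := by
  induction n with
  | zero => simp [sumZ]
  | succ n ih => rw [sumZ, ih, Finset.sum_range_succ]

/-- quadratic form of an integer vector against the shifted Hankel matrix -/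
def quadZ (r s : ℕ) (p : List ℤ) (e : ℕ) : ℤ :=
  sumZ (fun i => sumZ (fun j => p.getD i 0 * p.getD j 0 * apZ r s (i + j + e)) p.length) p.length

lemma not_stieltjes_of_quad {r s : ℕ} (p : List ℤ) (e : ℕ) (h : quadZ r s p e < 0) :
    ¬ IsStieltjes (apery r s) := by
  intro H
  have h1 := quad_nonneg H p.length (fun i => ((p.getD i 0 : ℤ) : ℝ)) e
  have h2 : (∑ i ∈ range p.length, ∑ j ∈ range p.length,
      ((p.getD i 0 : ℤ) : ℝ) * ((p.getD j 0 : ℤ) : ℝ) * apery r s (i + j + e))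
      = ((quadZ r s p e : ℤ) : ℝ) := by
    unfold quadZ
    rw [sumZ_eq]
    push_cast
    refine Finset.sum_congr rfl fun i _ => ?_
    rw [sumZ_eq]
    push_cast
    refine Finset.sum_congr rfl fun j _ => ?_
    rw [apery_eqZ]
  rw [h2] at h1
  have h' : ((quadZ r s p e : ℤ) : ℝ) < 0 := by exact_mod_cast h
  linarith

/-- certificates -/
def cert : List ((ℕ × ℕ) × (List ℤ × ℕ)) :=
  [((3,1),([207, -1760, 491, -40, 1],0)),
   ((3,2),([665820, -487256, 30222, -469, 1],0)),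
   ((3,3),([16034898, -2163416, 51079, -401, 1],1)),
   ((4,1),([687, -58, 1],1)),
   ((4,2),([-7373, 5003, -152, 1],0)),
   ((4,3),([-213913, 47443, -473, 1],0)),
   ((4,4),([-9445342, 350267, -1233, 1],1)),
   ((5,2),([-14442, 14960, -274, 1],0)),
   ((5,3),([-2100411, 442716, -1989, 1],0)),
   ((5,4),([-35442753, 3078004, -5023, 1],0)),
   ((5,5),([-985004927, 11517061, -7495, 1],1)),
   ((6,2),([48058, -531, 1],1)),
   ((6,3),([-8442845, 1989025, -5266, 1],0)),
   ((6,6),([-106336719332, 434696552, -52551, 1],1)),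
   ((7,7),([-12646689485338, 20599519236, -474941, 1],1))]

theorem cert_ok : ∀ c ∈ cert, quadZ c.1.1 c.1.2 c.2.1 c.2.2 < 0 := by decide +kernel

/-- levels at which infinite log-convexity fails: `((r, s), (k, n))` -/
def lev : List ((ℕ × ℕ) × (ℕ × ℕ)) :=
  [((3,1),(3,2)), ((3,2),(3,2)), ((3,3),(4,1)), ((4,1),(2,1)), ((4,2),(2,2)), ((4,3),(2,2)),
   ((4,4),(2,3)), ((5,2),(2,2)), ((5,3),(2,2)), ((5,4),(2,2)), ((5,5),(2,3)), ((6,2),(2,1)),
   ((6,3),(2,2)), ((6,6),(2,3)), ((7,7),(2,3))]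

theorem lev_ok : ∀ c ∈ lev, (L^[c.2.1]) (apZ c.1.1 c.1.2) c.2.2 < 0 := by decide +kernel

/-- the exceptional pairs, where log-convexity does not (visibly) fail -/
def exc (r s : ℕ) : Bool :=
  (r, s) ∈ [(3,1),(3,2),(3,3),(4,1),(4,2),(4,3),(4,4),(5,2),(5,3),(5,4),(5,5),(6,2),(6,3),(6,6),
    (7,7)]

/-- visible failure of log-convexity -/
def lcFail (r s : ℕ) : Bool :=
  (List.range 7).any fun n => decide (ap r s n * ap r s (n + 2) < ap r s (n + 1) ^ 2)

theorem fin_ok : ∀ s < 14, 1 ≤ s → ∀ r < 42, s ≤ r → 3 ≤ r → (exc r s || lcFail r s) = true := by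
  decide +kernel

end H439R3.Ap
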