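import Pool.Agent.H439R3.Ap.Fin

/-!
# Generalized Apéry numbers: the pairs (2,1), (1,2), (1,3)
-/

namespace H439R3.Ap

theorem not21 : ¬ IsStieltjes (apery 2 1) :=
  not_stieltjes_of_quad
    [197571622345, -897660649809, 1390027262944, -1057701415635, 460495210729, -123687092931, 21202563294, -2325507359, 157957414, -6051995, 100000]
    1 (by decide +kernel)

theorem not12 : ¬ IsStieltjes (apery 1 2) :=
  not_stieltjes_of_quad
    [100373755939998, -775924661109673, 1314670170560513, -950751724011046, 370312729089125, -87028716465611, 13116815162350, -1306840097171, 86694201793, -3769143844, 102400407, -1560029, 10000]
    0 (by decide +kernel)

theorem not13 : ¬ IsStieltjes (apery 1 3) :=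
  not_stieltjes_of_quad
    [-192042815659603108539067280737837644866, 636398279975365231351845561870232023593, -700132651821535958156373971034984959375, 382569247927008896329896119907825284969, -123981827329247248868790496643359581240, 26339108105624472096837289924254560631, -3908968803038928338646897123006371024, 423151406612634553273446004782046655, -34443601968604872642842474505495071, 2154402926341404618851173136462559, -105147998413923627415760811492001, 4045629627948328489177120503988, -123441095028466105397778191471, 2992574007423329427678869072, -57511919779954917501426150, 870067393292066054741098, -10227501275626858026547, 91423682650165610729, -600119632752754677, 2726090120028006, -7653057292615, 10000000000]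
    1 (by decide +kernel)

end H439R3.Ap
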