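import Pool.Agent.H439R3.Ap.Fin

/-!
# Generalized Apéry numbers: the pairs (3,5), (3,6)
-/

namespace H439R3.Ap

theorem not35 : ¬ IsStieltjes (apery 3 5) :=
  not_stieltjes_of_quad
    [-235568362633238753, 89682996872095896, -1734218115877009, 8756452902601, -17154484901, 15422980, -6416, 1]
    0 (by decide +kernel)

theorem not36 : ¬ IsStieltjes (apery 3 6) :=
  not_stieltjes_of_quad
    [608304518478209316528969, -104152174373189014793898, 848345110781390553207, -1950016542731438368, 1844344115003380, -840500394655, 195680845, -22410, 1]
    0 (by decide +kernel)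

end H439R3.Ap
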