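import Pool.Agent.H439R3.Ap.Fin

/-!
# Generalized Apéry numbers: finite computations for `r < s ≤ 2 r`
-/

open Finset

namespace H439R3.Ap

/-- levels at which infinite log-convexity fails: `((r, s), (k, n))` -/
def lev2 : List ((ℕ × ℕ) × (ℕ × ℕ)) :=
  [((3,4),(5,3)),
   ((4,5),(3,1)),
   ((4,6),(3,5)),
   ((4,7),(3,7)),
   ((4,8),(4,6)),
   ((5,6),(2,3)),
   ((5,7),(2,4)),
   ((5,8),(2,5)),
   ((5,9),(3,3)),
   ((5,10),(3,8)),
   ((6,7),(2,3)),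
   ((6,8),(2,4)),
   ((6,9),(2,4)),
   ((6,10),(2,5)),
   ((6,11),(2,6)),
   ((6,12),(2,7)),
   ((7,9),(2,1)),
   ((7,10),(2,4)),
   ((7,11),(2,4)),
   ((7,12),(2,5)),
   ((7,13),(2,6)),
   ((7,14),(2,7)),
   ((8,11),(2,1)),
   ((8,12),(2,4)),
   ((8,13),(2,5)),
   ((8,14),(2,5)),
   ((8,15),(2,6)),
   ((8,16),(2,6)),
   ((9,15),(2,2)),
   ((9,16),(2,5)),
   ((9,17),(2,6)),
   ((9,18),(2,6)),
   ((10,17),(2,2)),
   ((10,18),(2,5)),
   ((10,19),(2,6)),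
   ((10,20),(2,6)),
   ((11,22),(2,6))]

theorem lev2_ok : ∀ c ∈ lev2, (L^[c.2.1]) (apZ c.1.1 c.1.2) c.2.2 < 0 := by decide +kernel

theorem lev2_pos : ∀ c ∈ lev2, 1 ≤ c.2.1 := by decide +kernel

/-- visible failure of log-convexity -/
def lcFail2 (r s : ℕ) : Bool :=
  (List.range 12).any fun n => decide (ap r s n * ap r s (n + 2) < ap r s (n + 1) ^ 2)

/-- listed pairs -/
def exc2 (r s : ℕ) : Bool := lev2.any fun c => decide (c.1.1 = r ∧ c.1.2 = s)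

theorem fin2_ok : ∀ r < 40, 4 ≤ r → ∀ s < 2 * r + 1, r < s →
    (exc2 r s || lcFail2 r s) = true := by
  decide +kernel

theorem fin2_34 : exc2 3 4 = true := by decide +kernel

end H439R3.Ap
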