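import Pool.Agent.H439R3.Ap.Main2
import Pool.Agent.H439R3.Ap.Fin2
import Pool.Agent.H439R3.Ap.Fin3
import Pool.Agent.H439R3.Ap.Big23
import Pool.Agent.H439R3.Ap.Big14

/-!
# Generalized Apéry numbers: final statements
-/

namespace H439R3.Ap

/-- Stieltjes, `r ≥ 3`, `s ≤ 2 r` -/
theorem stieltjes_ge3 {r s : ℕ} (hs : 1 ≤ s) (hr : 3 ≤ r) (h2 : s ≤ 2 * r) :
    ¬ IsStieltjes (apery r s) := by
  by_cases h35 : (r, s) = (3, 5)
  · obtain ⟨rfl, rfl⟩ := Prod.mk.inj h35
    exact not35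
  by_cases h36 : (r, s) = (3, 6)
  · obtain ⟨rfl, rfl⟩ := Prod.mk.inj h36
    exact not36
  exact (region hs hr h2 h35 h36).2

/-- Stieltjes, `s < 2 r` -/
theorem stieltjes_lt {r s : ℕ} (hs : 1 ≤ s) (h2 : s < 2 * r) (h11 : (r, s) ≠ (1, 1))
    (h22 : (r, s) ≠ (2, 2)) : ¬ IsStieltjes (apery r s) := by
  rcases Nat.lt_or_ge r 3 with h3 | h3
  · have hr : r = 1 ∨ r = 2 := by omega
    rcases hr with rfl | rfl
    · have : s = 1 := by omega
      subst this
      exact absurd rfl h11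
    · have : s = 1 ∨ s = 2 ∨ s = 3 := by omega
      rcases this with rfl | rfl | rfl
      · exact not21
      · exact absurd rfl h22
      · exact not23
  · exact stieltjes_ge3 hs h3 h2.le

end H439R3.Ap
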