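import Pool.Agent.H439R3.Ap.Defs

/-!
# The operator `L` preserves Stieltjes moment sequences
-/

open MeasureTheory Set

namespace H439R3.Ap

lemma kern (n : ℕ) (p : ℝ × ℝ) :
    (p.1 - p.2) ^ 2 / 2 * (p.1 * p.2) ^ n
      = 1 / 2 * (p.1 ^ (n + 2) * p.2 ^ n) - p.1 ^ (n + 1) * p.2 ^ (n + 1)
        + 1 / 2 * (p.1 ^ n * p.2 ^ (n + 2)) := by
  rw [mul_pow]; ring

theorem isStieltjes_L {x : ℕ → ℝ} (hx : IsStieltjes x) : IsStieltjes (L x) := by
  obtain ⟨μ, h0, hint, hmom⟩ := hx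
  have hfin : IsFiniteMeasure μ := by
    have h := hint 0
    simp only [pow_zero] at h
    exact (integrable_const_iff_isFiniteMeasure one_ne_zero).1 h
  have hdm : Measurable (fun p : ℝ × ℝ => ENNReal.ofReal ((p.1 - p.2) ^ 2 / 2)) := by
    fun_prop
  have hmul : Measurable (fun p : ℝ × ℝ => p.1 * p.2) := by fun_prop
  have hlt : ∀ᵐ p ∂(μ.prod μ), ENNReal.ofReal ((p.1 - p.2) ^ 2 / 2) < ⊤ :=
    Filter.Eventually.of_forall fun p => ENNReal.ofReal_lt_top
  have hI : ∀ a b : ℕ, Integrable (fun p : ℝ × ℝ => p.1 ^ a * p.2 ^ b) (μ.prod μ) :=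
    fun a b => (hint a).mul_prod (hint b)
  have htr : ∀ p : ℝ × ℝ, (ENNReal.ofReal ((p.1 - p.2) ^ 2 / 2)).toReal = (p.1 - p.2) ^ 2 / 2 :=
    fun p => ENNReal.toReal_ofReal (by positivity)
  have hsm : ∀ n : ℕ, AEStronglyMeasurable (fun t : ℝ => t ^ n)
      (((μ.prod μ).withDensity (fun p : ℝ × ℝ => ENNReal.ofReal ((p.1 - p.2) ^ 2 / 2))).map
        (fun p => p.1 * p.2)) := fun n => (by fun_prop : Measurable fun t : ℝ => t ^ n).aestronglyMeasurable
  refine ⟨((μ.prod μ).withDensity (fun p : ℝ × ℝ => ENNReal.ofReal ((p.1 - p.2) ^ 2 / 2))).map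
    (fun p => p.1 * p.2), ?_, ?_, ?_⟩
  · rw [Measure.map_apply hmul measurableSet_Iio]
    apply withDensity_absolutelyContinuous
    have hsub : (fun p : ℝ × ℝ => p.1 * p.2) ⁻¹' Iio 0 ⊆ (Iio 0 ×ˢ univ) ∪ (univ ×ˢ Iio 0) := by
      intro p hp
      have hp' : p.1 * p.2 < 0 := hp
      by_contra hcon
      simp only [Set.mem_union, Set.mem_prod, Set.mem_Iio, Set.mem_univ, and_true, true_and,
        not_or, not_lt] at hcon
      have := mul_nonneg hcon.1 hcon.2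
      linarith
    refine measure_mono_null hsub (measure_union_null ?_ ?_)
    · rw [Measure.prod_prod, h0, zero_mul]
    · rw [Measure.prod_prod, h0, mul_zero]
  · intro n
    rw [integrable_map_measure (hsm n) hmul.aemeasurable]
    rw [integrable_withDensity_iff_integrable_smul' hdm hlt]
    have : (fun p : ℝ × ℝ => (ENNReal.ofReal ((p.1 - p.2) ^ 2 / 2)).toReal •
        ((fun t : ℝ => t ^ n) ∘ fun p : ℝ × ℝ => p.1 * p.2) p)
        = fun p : ℝ × ℝ => 1 / 2 * (p.1 ^ (n + 2) * p.2 ^ n) - p.1 ^ (n + 1) * p.2 ^ (n + 1)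
        + 1 / 2 * (p.1 ^ n * p.2 ^ (n + 2)) := by
      funext p
      rw [htr p, smul_eq_mul, Function.comp_apply, kern]
    rw [this]
    exact (((hI _ _).const_mul _).sub (hI _ _)).add ((hI _ _).const_mul _)
  · intro n
    rw [integral_map hmul.aemeasurable (hsm n)]
    rw [integral_withDensity_eq_integral_toReal_smul hdm hlt]
    have : (fun p : ℝ × ℝ => (ENNReal.ofReal ((p.1 - p.2) ^ 2 / 2)).toReal • (p.1 * p.2) ^ n)
        = fun p : ℝ × ℝ => 1 / 2 * (p.1 ^ (n + 2) * p.2 ^ n) - p.1 ^ (n + 1) * p.2 ^ (n + 1)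
        + 1 / 2 * (p.1 ^ n * p.2 ^ (n + 2)) := by
      funext p
      rw [htr p, smul_eq_mul, kern]
    rw [this]
    have hA : Integrable (fun p : ℝ × ℝ => 1 / 2 * (p.1 ^ (n + 2) * p.2 ^ n)) (μ.prod μ) :=
      (hI _ _).const_mul _
    have hB : Integrable (fun p : ℝ × ℝ => p.1 ^ (n + 1) * p.2 ^ (n + 1)) (μ.prod μ) := hI _ _
    have hC : Integrable (fun p : ℝ × ℝ => 1 / 2 * (p.1 ^ n * p.2 ^ (n + 2))) (μ.prod μ) :=
      (hI _ _).const_mul _
    have hAB : Integrable (fun p : ℝ × ℝ => 1 / 2 * (p.1 ^ (n + 2) * p.2 ^ n)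
      - p.1 ^ (n + 1) * p.2 ^ (n + 1)) (μ.prod μ) := hA.sub hB
    rw [integral_add hAB hC, integral_sub hA hB, integral_const_mul, integral_const_mul]
    have hp : ∀ a b : ℕ, ∫ p : ℝ × ℝ, p.1 ^ a * p.2 ^ b ∂(μ.prod μ) = x a * x b := by
      intro a b
      rw [integral_prod_mul (fun t : ℝ => t ^ a) (fun t : ℝ => t ^ b), ← hmom, ← hmom]
    rw [hp, hp, hp]
    simp only [L]
    ring

theorem isStieltjes_Lk {x : ℕ → ℝ} (hx : IsStieltjes x) (k : ℕ) : IsStieltjes ((L^[k]) x) := by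
  induction k with
  | zero => exact hx
  | succ k ih => rw [Function.iterate_succ_apply']; exact isStieltjes_L ih

/-- a Stieltjes moment sequence is infinitely log-convex -/
theorem IsStieltjes.infLogConvex {x : ℕ → ℝ} (hx : IsStieltjes x) : InfLogConvex x := by
  intro k _ n
  obtain ⟨μ, h0, hint, hmom⟩ := isStieltjes_Lk hx k
  rw [hmom]
  refine integral_nonneg_of_ae ?_
  have hae : ∀ᵐ t ∂μ, 0 ≤ t := by
    rw [ae_iff]
    have : {a : ℝ | ¬ 0 ≤ a} = Set.Iio 0 := by ext a; simp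
    rw [this]; exact h0
  filter_upwards [hae] with t ht
  show (0:ℝ) ≤ _
  positivity

end H439R3.Ap
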