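import Pool.Agent.H439R3.Ap.Reg
import Pool.Agent.H439R3.Ap.Fin

/-!
# Generalized Apéry numbers: the half plane `r ≥ s`
-/

open Finset

namespace H439R3.Ap

lemma apery_pos (r s n : ℕ) : 0 < apery r s n := by
  unfold apery
  refine Finset.sum_pos (fun k hk => ?_) ⟨0, by simp⟩
  have hk' : k ≤ n := by simpa [Nat.lt_succ_iff] using hk
  have h1 : 0 < n.choose k := Nat.choose_pos hk'
  have h2 : 0 < (n + k).choose k := Nat.choose_pos (by omega)
  positivity

lemma of_fail {r s n : ℕ} (h : apery r s n * apery r s (n + 2) < apery r s (n + 1) ^ 2) :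
    ¬ InfLogConvex (apery r s) ∧ ¬ IsStieltjes (apery r s) := by
  constructor
  · intro H
    have := H 1 le_rfl n
    simp only [Function.iterate_one, L] at this
    linarith
  · intro H
    have := logconvex H (apery_pos r s) n
    linarith

lemma of_exc {r s : ℕ} (h : exc r s = true) :
    ¬ InfLogConvex (apery r s) ∧ ¬ IsStieltjes (apery r s) := by
  have hc : ∃ c ∈ cert, c.1 = (r, s) := by
    simp only [exc, decide_eq_true_eq, List.mem_cons, List.not_mem_nil, or_false, Prod.mk.injEq] at h
    rcases h with h | h | h | h | h | h | h | h | h | h | h | h | h | h | h <;>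
      obtain ⟨rfl, rfl⟩ := h <;> simp [cert]
  have hl : ∃ c ∈ lev, c.1 = (r, s) ∧ 1 ≤ c.2.1 := by
    simp only [exc, decide_eq_true_eq, List.mem_cons, List.not_mem_nil, or_false, Prod.mk.injEq] at h
    rcases h with h | h | h | h | h | h | h | h | h | h | h | h | h | h | h <;>
      obtain ⟨rfl, rfl⟩ := h <;> simp [lev]
  obtain ⟨c, hc1, hc2⟩ := hc
  obtain ⟨d, hd1, hd2, hd3⟩ := hl
  constructor
  · have := lev_ok d hd1
    rw [hd2] at this
    exact not_inf_of_neg hd3 this
  · have := cert_ok c hc1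
    rw [hc2] at this
    exact not_stieltjes_of_quad _ _ this

lemma of_lcFail {r s : ℕ} (h : lcFail r s = true) :
    ¬ InfLogConvex (apery r s) ∧ ¬ IsStieltjes (apery r s) := by
  unfold lcFail at h
  rw [List.any_eq_true] at h
  obtain ⟨n, -, hn⟩ := h
  rw [decide_eq_true_eq] at hn
  apply of_fail (n := n)
  rw [apery_eq, apery_eq, apery_eq]
  exact_mod_cast hn

/-- the half plane `r ≥ s`, `r ≥ 3` -/
theorem half {r s : ℕ} (hs : 1 ≤ s) (hsr : s ≤ r) (hr : 3 ≤ r) :
    ¬ InfLogConvex (apery r s) ∧ ¬ IsStieltjes (apery r s) := by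
  rcases Nat.lt_or_ge s 14 with h14 | h14
  · rcases Nat.lt_or_ge r 42 with h42 | h42
    · have := fin_ok s h14 hs r h42 hsr hr
      rw [Bool.or_eq_true] at this
      rcases this with h | h
      · exact of_exc h
      · exact of_lcFail h
    · exact of_fail (big_r hs (by omega) h42)
  · obtain ⟨n, hn⟩ := big_s h14 hsr
    exact of_fail hn

end H439R3.Ap
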