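import Pool.Agent.H439R3.Ap.Reg

/-!
# Generalized Apéry numbers: failure of log-convexity for `r < s ≤ 2 r`, `r ≥ 40`
-/

open Finset

namespace H439R3.Ap

lemma apery7 (r s : ℕ) : apery r s 7 = 1 + 7 ^ r * 8 ^ s + 21 ^ r * 36 ^ s + 35 ^ r * 120 ^ s
    + 35 ^ r * 330 ^ s + 21 ^ r * 792 ^ s + 7 ^ r * 1716 ^ s + 3432 ^ s := by
  norm_num [apery, Finset.sum_range_succ, Nat.choose]

/-- comparison of two-parameter exponentials: `A^r B^s ≤ ε P^r Q^s` -/
lemma term_le {A B P Q ε : ℝ} {r s : ℕ} (m p q : ℕ) (hA : 0 < A) (hB : 0 < B) (hP : 0 < P)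
    (hQ : 0 < Q) (hε : 0 < ε) (hq : q ≠ 0)
    (hy : (Q ≤ B ∧ q * s ≤ p * r) ∨ (B ≤ Q ∧ p * r ≤ q * s))
    (h1 : A ^ q * B ^ p ≤ P ^ q * Q ^ p)
    (hnum : (A ^ q * B ^ p) ^ m ≤ ε ^ q * (P ^ q * Q ^ p) ^ m) (hm : m ≤ r) :
    A ^ r * B ^ s ≤ ε * (P ^ r * Q ^ s) := by
  have hx0 : 0 < A / P := by positivity
  have hy0 : 0 < B / Q := by positivity
  have hM : 0 < P ^ r * Q ^ s := by positivity
  have e0 : A ^ r * B ^ s = ((A / P) ^ r * (B / Q) ^ s) * (P ^ r * Q ^ s) := by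
    rw [div_pow, div_pow]; field_simp
  have e1 : (B / Q) ^ (q * s) ≤ (B / Q) ^ (p * r) := by
    rcases hy with ⟨h, h'⟩ | ⟨h, h'⟩
    · exact pow_le_pow_right₀ (by rwa [le_div_iff₀ hQ, one_mul]) h'
    · exact pow_le_pow_of_le_one hy0.le (by rwa [div_le_one hQ]) h'
  have e2 : (A / P) ^ q * (B / Q) ^ p ≤ 1 := by
    rw [div_pow, div_pow, div_mul_div_comm, div_le_one (by positivity)]
    exact h1
  have e3 : ((A / P) ^ q * (B / Q) ^ p) ^ m ≤ ε ^ q := by
    rw [div_pow, div_pow, div_mul_div_comm, div_pow, div_le_iff₀ (by positivity)]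
    exact hnum
  have e4 : ((A / P) ^ r * (B / Q) ^ s) ^ q ≤ ε ^ q := by
    calc ((A / P) ^ r * (B / Q) ^ s) ^ q = (A / P) ^ (q * r) * (B / Q) ^ (q * s) := by
          rw [mul_pow, ← pow_mul, ← pow_mul, mul_comm r q, mul_comm s q]
      _ ≤ (A / P) ^ (q * r) * (B / Q) ^ (p * r) := mul_le_mul_of_nonneg_left e1 (by positivity)
      _ = ((A / P) ^ q * (B / Q) ^ p) ^ r := by rw [mul_pow, ← pow_mul, ← pow_mul]
      _ ≤ ((A / P) ^ q * (B / Q) ^ p) ^ m := pow_le_pow_of_le_one (by positivity) e2 hm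
      _ ≤ ε ^ q := e3
  have e5 : (A / P) ^ r * (B / Q) ^ s ≤ ε :=
    (pow_le_pow_iff_left₀ (by positivity) hε.le hq).1 e4
  rw [e0]
  exact mul_le_mul_of_nonneg_right e5 hM.le

lemma sq_main (A B : ℝ) (r s : ℕ) : (A ^ r * B ^ s) ^ 2 = (A ^ 2) ^ r * (B ^ 2) ^ s := by
  rw [mul_pow, ← pow_mul, ← pow_mul, ← pow_mul, ← pow_mul, mul_comm r 2, mul_comm s 2]

lemma mul_main (A B C D : ℝ) (r s : ℕ) :
    (A ^ r * B ^ s) * (C ^ r * D ^ s) = (A * C) ^ r * (B * D) ^ s := by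
  rw [mul_pow, mul_pow]; ring

/-- combination step -/
lemma combine {x y z mx my mz a b ε : ℝ} (hx : x ≤ a * mx) (hy : y ≤ b * my) (hz : mz ≤ z)
    (hx0 : 0 ≤ x) (hy0 : 0 ≤ y) (hmx : 0 ≤ mx) (hmy : 0 ≤ my) (ha : 0 ≤ a) (hb : 0 ≤ b)
    (hmz : 0 < mz)
    (h : mx * my ≤ ε * mz ^ 2) (hc : a * b * ε < 1) : x * y < z ^ 2 := by
  have h1 : x * y ≤ (a * mx) * (b * my) := mul_le_mul hx hy hy0 (by positivity)
  have h2 : (a * mx) * (b * my) = (a * b) * (mx * my) := by ring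
  have h3 : (a * b) * (mx * my) ≤ (a * b) * (ε * mz ^ 2) :=
    mul_le_mul_of_nonneg_left h (by positivity)
  have h4 : 0 < mz ^ 2 := by positivity
  have h5 : (a * b) * (ε * mz ^ 2) < mz ^ 2 := by nlinarith
  have h6 : mz ^ 2 ≤ z ^ 2 := pow_le_pow_left₀ hmz.le hz 2
  linarith

lemma regD {r s : ℕ} (hr : 40 ≤ r) (h1 : r ≤ s) (h2 : 2 * s ≤ 3 * r) :
    apery r s 3 * apery r s 5 < apery r s 4 ^ 2 := by
  rw [apery3, apery4, apery5]
  have one : (1:ℝ) = 1 ^ r * 1 ^ s := by simp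
  -- a_3
  have a1 : (1:ℝ) ^ r * 1 ^ s ≤ 1 / 1000 * (3 ^ r * 10 ^ s) :=
    term_le 40 1 1 (by norm_num) (by norm_num) (by norm_num) (by norm_num) (by norm_num)
      (by norm_num) (Or.inr ⟨by norm_num, by omega⟩) (by norm_num) (by norm_num) hr
  have a2 : (3:ℝ) ^ r * 4 ^ s ≤ 1 / 1000 * (3 ^ r * 10 ^ s) :=
    term_le 40 1 1 (by norm_num) (by norm_num) (by norm_num) (by norm_num) (by norm_num)
      (by norm_num) (Or.inr ⟨by norm_num, by omega⟩) (by norm_num) (by norm_num) hr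
  have a3 : (1:ℝ) ^ r * 20 ^ s ≤ 1 / 10 * (3 ^ r * 10 ^ s) :=
    term_le 40 3 2 (by norm_num) (by norm_num) (by norm_num) (by norm_num) (by norm_num)
      (by norm_num) (Or.inl ⟨by norm_num, by omega⟩) (by norm_num) (by norm_num) hr
  -- a_5
  have b1 : (1:ℝ) ^ r * 1 ^ s ≤ 1 / 1000 * (5 ^ r * 126 ^ s) :=
    term_le 40 1 1 (by norm_num) (by norm_num) (by norm_num) (by norm_num) (by norm_num)
      (by norm_num) (Or.inr ⟨by norm_num, by omega⟩) (by norm_num) (by norm_num) hr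
  have b2 : (5:ℝ) ^ r * 6 ^ s ≤ 1 / 1000 * (5 ^ r * 126 ^ s) :=
    term_le 40 1 1 (by norm_num) (by norm_num) (by norm_num) (by norm_num) (by norm_num)
      (by norm_num) (Or.inr ⟨by norm_num, by omega⟩) (by norm_num) (by norm_num) hr
  have b3 : (10:ℝ) ^ r * 21 ^ s ≤ 1 / 1000 * (5 ^ r * 126 ^ s) :=
    term_le 40 1 1 (by norm_num) (by norm_num) (by norm_num) (by norm_num) (by norm_num)
      (by norm_num) (Or.inr ⟨by norm_num, by omega⟩) (by norm_num) (by norm_num) hr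
  have b4 : (10:ℝ) ^ r * 56 ^ s ≤ 1 / 100 * (5 ^ r * 126 ^ s) :=
    term_le 40 1 1 (by norm_num) (by norm_num) (by norm_num) (by norm_num) (by norm_num)
      (by norm_num) (Or.inr ⟨by norm_num, by omega⟩) (by norm_num) (by norm_num) hr
  have b5 : (1:ℝ) ^ r * 252 ^ s ≤ 1 / 1000 * (5 ^ r * 126 ^ s) :=
    term_le 40 3 2 (by norm_num) (by norm_num) (by norm_num) (by norm_num) (by norm_num)
      (by norm_num) (Or.inl ⟨by norm_num, by omega⟩) (by norm_num) (by norm_num) hr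
  rw [← one] at a1 b1
  rw [one_pow, one_mul] at a3 b5
  have m : (15:ℝ) ^ r * 1260 ^ s ≤ 42 / 100 * (16 ^ r * 1225 ^ s) :=
    term_le 40 3 2 (by norm_num) (by norm_num) (by norm_num) (by norm_num) (by norm_num)
      (by norm_num) (Or.inl ⟨by norm_num, by omega⟩) (by norm_num) (by norm_num) hr
  refine combine (a := 1102 / 1000) (b := 1014 / 1000) (ε := 42 / 100)
    (mx := 3 ^ r * 10 ^ s) (my := 5 ^ r * 126 ^ s) (mz := 4 ^ r * 35 ^ s)
    (by linarith) (by linarith) ?_ (by positivity) (by positivity) (by positivity) (by positivity)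
    (by norm_num) (by norm_num) (by positivity) ?_ (by norm_num)
  · have p1 : (0:ℝ) < 4 ^ r * 5 ^ s := by positivity
    have p2 : (0:ℝ) < 6 ^ r * 15 ^ s := by positivity
    have p3 : (0:ℝ) < 70 ^ s := by positivity
    linarith
  · rw [mul_main, sq_main]
    norm_num only
    norm_num only at m
    exact m

lemma regE {r s : ℕ} (hr : 40 ≤ r) (h1 : 3 * r ≤ 2 * s) (h2 : 5 * s ≤ 9 * r) :
    apery r s 4 * apery r s 6 < apery r s 5 ^ 2 := by
  rw [apery4, apery5, apery6]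
  have one : (1:ℝ) = 1 ^ r * 1 ^ s := by simp
  have a1 : (1:ℝ) ^ r * 1 ^ s ≤ 1 / 1000 * (4 ^ r * 35 ^ s) :=
    term_le 40 3 2 (by norm_num) (by norm_num) (by norm_num) (by norm_num) (by norm_num)
      (by norm_num) (Or.inr ⟨by norm_num, by omega⟩) (by norm_num) (by norm_num) hr
  have a2 : (4:ℝ) ^ r * 5 ^ s ≤ 1 / 1000 * (4 ^ r * 35 ^ s) :=
    term_le 40 3 2 (by norm_num) (by norm_num) (by norm_num) (by norm_num) (by norm_num)
      (by norm_num) (Or.inr ⟨by norm_num, by omega⟩) (by norm_num) (by norm_num) hr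
  have a3 : (6:ℝ) ^ r * 15 ^ s ≤ 1 / 1000 * (4 ^ r * 35 ^ s) :=
    term_le 40 3 2 (by norm_num) (by norm_num) (by norm_num) (by norm_num) (by norm_num)
      (by norm_num) (Or.inr ⟨by norm_num, by omega⟩) (by norm_num) (by norm_num) hr
  have a4 : (1:ℝ) ^ r * 70 ^ s ≤ 5 / 1000 * (4 ^ r * 35 ^ s) :=
    term_le 40 9 5 (by norm_num) (by norm_num) (by norm_num) (by norm_num) (by norm_num)
      (by norm_num) (Or.inl ⟨by norm_num, by omega⟩) (by norm_num) (by norm_num) hr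
  have b1 : (1:ℝ) ^ r * 1 ^ s ≤ 1 / 1000 * (6 ^ r * 462 ^ s) :=
    term_le 40 3 2 (by norm_num) (by norm_num) (by norm_num) (by norm_num) (by norm_num)
      (by norm_num) (Or.inr ⟨by norm_num, by omega⟩) (by norm_num) (by norm_num) hr
  have b2 : (6:ℝ) ^ r * 7 ^ s ≤ 1 / 1000 * (6 ^ r * 462 ^ s) :=
    term_le 40 3 2 (by norm_num) (by norm_num) (by norm_num) (by norm_num) (by norm_num)
      (by norm_num) (Or.inr ⟨by norm_num, by omega⟩) (by norm_num) (by norm_num) hr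
  have b3 : (15:ℝ) ^ r * 28 ^ s ≤ 1 / 1000 * (6 ^ r * 462 ^ s) :=
    term_le 40 3 2 (by norm_num) (by norm_num) (by norm_num) (by norm_num) (by norm_num)
      (by norm_num) (Or.inr ⟨by norm_num, by omega⟩) (by norm_num) (by norm_num) hr
  have b4 : (20:ℝ) ^ r * 84 ^ s ≤ 1 / 1000 * (6 ^ r * 462 ^ s) :=
    term_le 40 3 2 (by norm_num) (by norm_num) (by norm_num) (by norm_num) (by norm_num)
      (by norm_num) (Or.inr ⟨by norm_num, by omega⟩) (by norm_num) (by norm_num) hr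
  have b5 : (15:ℝ) ^ r * 210 ^ s ≤ 1 / 1000 * (6 ^ r * 462 ^ s) :=
    term_le 40 3 2 (by norm_num) (by norm_num) (by norm_num) (by norm_num) (by norm_num)
      (by norm_num) (Or.inr ⟨by norm_num, by omega⟩) (by norm_num) (by norm_num) hr
  have b6 : (1:ℝ) ^ r * 924 ^ s ≤ 1 / 1000 * (6 ^ r * 462 ^ s) :=
    term_le 40 9 5 (by norm_num) (by norm_num) (by norm_num) (by norm_num) (by norm_num)
      (by norm_num) (Or.inl ⟨by norm_num, by omega⟩) (by norm_num) (by norm_num) hr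
  rw [← one] at a1 b1
  rw [one_pow, one_mul] at a4 b6
  have m : (24:ℝ) ^ r * 16170 ^ s ≤ 74 / 100 * (25 ^ r * 15876 ^ s) :=
    term_le 40 9 5 (by norm_num) (by norm_num) (by norm_num) (by norm_num) (by norm_num)
      (by norm_num) (Or.inl ⟨by norm_num, by omega⟩) (by norm_num) (by norm_num) hr
  refine combine (a := 1010 / 1000) (b := 1010 / 1000) (ε := 74 / 100)
    (mx := 4 ^ r * 35 ^ s) (my := 6 ^ r * 462 ^ s) (mz := 5 ^ r * 126 ^ s)
    (by linarith) (by linarith) ?_ (by positivity) (by positivity) (by positivity) (by positivity)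
    (by norm_num) (by norm_num) (by positivity) ?_ (by norm_num)
  · have p1 : (0:ℝ) < 5 ^ r * 6 ^ s := by positivity
    have p2 : (0:ℝ) < 10 ^ r * 21 ^ s := by positivity
    have p3 : (0:ℝ) < 10 ^ r * 56 ^ s := by positivity
    have p4 : (0:ℝ) < 252 ^ s := by positivity
    linarith
  · rw [mul_main, sq_main]
    norm_num only
    norm_num only at m
    exact m

lemma regF {r s : ℕ} (hr : 40 ≤ r) (h1 : 9 * r ≤ 5 * s) (h2 : s ≤ 2 * r) :
    apery r s 5 * apery r s 7 < apery r s 6 ^ 2 := by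
  rw [apery5, apery6, apery7]
  have one : (1:ℝ) = 1 ^ r * 1 ^ s := by simp
  have a1 : (1:ℝ) ^ r * 1 ^ s ≤ 1 / 1000 * (5 ^ r * 126 ^ s) :=
    term_le 40 9 5 (by norm_num) (by norm_num) (by norm_num) (by norm_num) (by norm_num)
      (by norm_num) (Or.inr ⟨by norm_num, by omega⟩) (by norm_num) (by norm_num) hr
  have a2 : (5:ℝ) ^ r * 6 ^ s ≤ 1 / 1000 * (5 ^ r * 126 ^ s) :=
    term_le 40 9 5 (by norm_num) (by norm_num) (by norm_num) (by norm_num) (by norm_num)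
      (by norm_num) (Or.inr ⟨by norm_num, by omega⟩) (by norm_num) (by norm_num) hr
  have a3 : (10:ℝ) ^ r * 21 ^ s ≤ 1 / 1000 * (5 ^ r * 126 ^ s) :=
    term_le 40 9 5 (by norm_num) (by norm_num) (by norm_num) (by norm_num) (by norm_num)
      (by norm_num) (Or.inr ⟨by norm_num, by omega⟩) (by norm_num) (by norm_num) hr
  have a4 : (10:ℝ) ^ r * 56 ^ s ≤ 1 / 1000 * (5 ^ r * 126 ^ s) :=
    term_le 40 9 5 (by norm_num) (by norm_num) (by norm_num) (by norm_num) (by norm_num)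
      (by norm_num) (Or.inr ⟨by norm_num, by omega⟩) (by norm_num) (by norm_num) hr
  have a5 : (1:ℝ) ^ r * 252 ^ s ≤ 1 / 1000 * (5 ^ r * 126 ^ s) :=
    term_le 40 2 1 (by norm_num) (by norm_num) (by norm_num) (by norm_num) (by norm_num)
      (by norm_num) (Or.inl ⟨by norm_num, by omega⟩) (by norm_num) (by norm_num) hr
  have b1 : (1:ℝ) ^ r * 1 ^ s ≤ 1 / 1000 * (7 ^ r * 1716 ^ s) :=
    term_le 40 9 5 (by norm_num) (by norm_num) (by norm_num) (by norm_num) (by norm_num)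
      (by norm_num) (Or.inr ⟨by norm_num, by omega⟩) (by norm_num) (by norm_num) hr
  have b2 : (7:ℝ) ^ r * 8 ^ s ≤ 1 / 1000 * (7 ^ r * 1716 ^ s) :=
    term_le 40 9 5 (by norm_num) (by norm_num) (by norm_num) (by norm_num) (by norm_num)
      (by norm_num) (Or.inr ⟨by norm_num, by omega⟩) (by norm_num) (by norm_num) hr
  have b3 : (21:ℝ) ^ r * 36 ^ s ≤ 1 / 1000 * (7 ^ r * 1716 ^ s) :=
    term_le 40 9 5 (by norm_num) (by norm_num) (by norm_num) (by norm_num) (by norm_num)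
      (by norm_num) (Or.inr ⟨by norm_num, by omega⟩) (by norm_num) (by norm_num) hr
  have b4 : (35:ℝ) ^ r * 120 ^ s ≤ 1 / 1000 * (7 ^ r * 1716 ^ s) :=
    term_le 40 9 5 (by norm_num) (by norm_num) (by norm_num) (by norm_num) (by norm_num)
      (by norm_num) (Or.inr ⟨by norm_num, by omega⟩) (by norm_num) (by norm_num) hr
  have b5 : (35:ℝ) ^ r * 330 ^ s ≤ 1 / 1000 * (7 ^ r * 1716 ^ s) :=
    term_le 40 9 5 (by norm_num) (by norm_num) (by norm_num) (by norm_num) (by norm_num)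
      (by norm_num) (Or.inr ⟨by norm_num, by omega⟩) (by norm_num) (by norm_num) hr
  have b6 : (21:ℝ) ^ r * 792 ^ s ≤ 1 / 1000 * (7 ^ r * 1716 ^ s) :=
    term_le 40 9 5 (by norm_num) (by norm_num) (by norm_num) (by norm_num) (by norm_num)
      (by norm_num) (Or.inr ⟨by norm_num, by omega⟩) (by norm_num) (by norm_num) hr
  have b7 : (1:ℝ) ^ r * 3432 ^ s ≤ 1 / 1000 * (7 ^ r * 1716 ^ s) :=
    term_le 40 2 1 (by norm_num) (by norm_num) (by norm_num) (by norm_num) (by norm_num)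
      (by norm_num) (Or.inl ⟨by norm_num, by omega⟩) (by norm_num) (by norm_num) hr
  rw [← one] at a1 b1
  rw [one_pow, one_mul] at a5 b7
  have m : (35:ℝ) ^ r * 216216 ^ s ≤ 92 / 100 * (36 ^ r * 213444 ^ s) :=
    term_le 40 2 1 (by norm_num) (by norm_num) (by norm_num) (by norm_num) (by norm_num)
      (by norm_num) (Or.inl ⟨by norm_num, by omega⟩) (by norm_num) (by norm_num) hr
  refine combine (a := 1010 / 1000) (b := 1010 / 1000) (ε := 92 / 100)
    (mx := 5 ^ r * 126 ^ s) (my := 7 ^ r * 1716 ^ s) (mz := 6 ^ r * 462 ^ s)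
    (by linarith) (by linarith) ?_ (by positivity) (by positivity) (by positivity) (by positivity)
    (by norm_num) (by norm_num) (by positivity) ?_ (by norm_num)
  · have p1 : (0:ℝ) < 6 ^ r * 7 ^ s := by positivity
    have p2 : (0:ℝ) < 15 ^ r * 28 ^ s := by positivity
    have p3 : (0:ℝ) < 20 ^ r * 84 ^ s := by positivity
    have p4 : (0:ℝ) < 15 ^ r * 210 ^ s := by positivity
    have p5 : (0:ℝ) < 924 ^ s := by positivity
    linarith
  · rw [mul_main, sq_main]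
    norm_num only
    norm_num only at m
    exact m

/-- for `r ≥ 40`, `r ≤ s ≤ 2 r`, log-convexity fails -/
theorem upper {r s : ℕ} (hr : 40 ≤ r) (h1 : r ≤ s) (h2 : s ≤ 2 * r) :
    ∃ n : ℕ, apery r s n * apery r s (n + 2) < apery r s (n + 1) ^ 2 := by
  rcases Nat.lt_or_ge (3 * r) (2 * s) with h | h
  · rcases Nat.lt_or_ge (9 * r) (5 * s) with h' | h'
    · exact ⟨5, regF hr h'.le h2⟩
    · exact ⟨4, regE hr h.le h'⟩
  · exact ⟨3, regD hr h1 h⟩

end H439R3.Ap
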