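import Pool.Agent.H439R3.Ap.Main
import Pool.Agent.H439R3.Ap.Reg2
import Pool.Agent.H439R3.Ap.LSt
import Pool.Agent.H439R3.Ap.FinB

/-!
# Generalized Apéry numbers: the region `s ≤ 2 r`
-/

open Finset

namespace H439R3.Ap

lemma of_exc2 {r s : ℕ} (h : exc2 r s = true) :
    ¬ InfLogConvex (apery r s) ∧ ¬ IsStieltjes (apery r s) := by
  unfold exc2 at h
  rw [List.any_eq_true] at h
  obtain ⟨c, hc, h⟩ := h
  rw [decide_eq_true_eq] at h
  have h1 := lev2_ok c hc
  have h2 := lev2_pos c hc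
  rw [h.1, h.2] at h1
  have h3 := not_inf_of_neg h2 h1
  exact ⟨h3, fun H => h3 H.infLogConvex⟩

lemma of_lcFail2 {r s : ℕ} (h : lcFail2 r s = true) :
    ¬ InfLogConvex (apery r s) ∧ ¬ IsStieltjes (apery r s) := by
  unfold lcFail2 at h
  rw [List.any_eq_true] at h
  obtain ⟨n, -, hn⟩ := h
  rw [decide_eq_true_eq] at hn
  apply of_fail (n := n)
  rw [apery_eq, apery_eq, apery_eq]
  exact_mod_cast hn

/-- the region `1 ≤ s ≤ 2 r`, `r ≥ 4`, together with `(3, s)`, `s ≤ 4` -/
theorem region {r s : ℕ} (hs : 1 ≤ s) (hr : 3 ≤ r) (h2 : s ≤ 2 * r) (h35 : (r, s) ≠ (3, 5))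
    (h36 : (r, s) ≠ (3, 6)) :
    ¬ InfLogConvex (apery r s) ∧ ¬ IsStieltjes (apery r s) := by
  rcases Nat.lt_or_ge r s with hrs | hrs
  · rcases Nat.lt_or_ge r 40 with h40 | h40
    · rcases Nat.lt_or_ge r 4 with h4 | h4
      · have hr3 : r = 3 := by omega
        subst hr3
        have : s ≠ 5 := fun h => h35 (by rw [h])
        have : s ≠ 6 := fun h => h36 (by rw [h])
        have hs4 : s = 4 := by omega
        subst hs4
        exact of_exc2 fin2_34
      · have := fin2_ok r h40 h4 s (by omega) hrs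
        rw [Bool.or_eq_true] at this
        rcases this with h | h
        · exact of_exc2 h
        · exact of_lcFail2 h
    · obtain ⟨n, hn⟩ := upper h40 hrs.le h2
      exact of_fail hn
  · exact half hs hrs hr

end H439R3.Ap
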