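import Pool.Agent.H439R3.Ap.Defs

/-!
# Generalized Apéry numbers: failure of log-convexity for large parameters
-/

open Finset

namespace H439R3.Ap

lemma apery1 (r s : ℕ) : apery r s 1 = 1 + 2 ^ s := by
  norm_num [apery, Finset.sum_range_succ, Nat.choose]

lemma apery2 (r s : ℕ) : apery r s 2 = 1 + 2 ^ r * 3 ^ s + 6 ^ s := by
  norm_num [apery, Finset.sum_range_succ, Nat.choose]

lemma apery3 (r s : ℕ) : apery r s 3 = 1 + 3 ^ r * 4 ^ s + 3 ^ r * 10 ^ s + 20 ^ s := by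
  norm_num [apery, Finset.sum_range_succ, Nat.choose]

lemma apery4 (r s : ℕ) : apery r s 4 = 1 + 4 ^ r * 5 ^ s + 6 ^ r * 15 ^ s + 4 ^ r * 35 ^ s
    + 70 ^ s := by
  norm_num [apery, Finset.sum_range_succ, Nat.choose]

lemma apery5 (r s : ℕ) : apery r s 5 = 1 + 5 ^ r * 6 ^ s + 10 ^ r * 21 ^ s + 10 ^ r * 56 ^ s
    + 5 ^ r * 126 ^ s + 252 ^ s := by
  norm_num [apery, Finset.sum_range_succ, Nat.choose]

lemma apery6 (r s : ℕ) : apery r s 6 = 1 + 6 ^ r * 7 ^ s + 15 ^ r * 28 ^ s + 20 ^ r * 84 ^ s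
    + 15 ^ r * 210 ^ s + 6 ^ r * 462 ^ s + 924 ^ s := by
  norm_num [apery, Finset.sum_range_succ, Nat.choose]

/-- `a^s ≤ ε b^s` when `a^m ≤ ε b^m`, `a ≤ b`, `m ≤ s` -/
lemma pow_le_eps {a b ε : ℝ} {m s : ℕ} (ha : 0 ≤ a) (hab : a ≤ b) (hm : a ^ m ≤ ε * b ^ m)
    (hs : m ≤ s) : a ^ s ≤ ε * b ^ s := by
  obtain ⟨k, rfl⟩ := Nat.exists_eq_add_of_le hs
  rw [pow_add, pow_add]
  have h1 : a ^ k ≤ b ^ k := pow_le_pow_left₀ ha hab k
  have h2 : 0 ≤ a ^ m := pow_nonneg ha m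
  have h3 : 0 ≤ b ^ k := pow_nonneg (ha.trans hab) k
  calc a ^ m * a ^ k ≤ a ^ m * b ^ k := mul_le_mul_of_nonneg_left h1 h2
    _ ≤ (ε * b ^ m) * b ^ k := mul_le_mul_of_nonneg_right hm h3
    _ = _ := by ring

lemma regA {r s : ℕ} (hs : 1 ≤ s) (hsr : s ≤ r)
    (h : (4:ℝ) * (20 ^ s * 3 ^ r) ≤ 9 ^ s * 4 ^ r) :
    apery r s 1 * apery r s 3 < apery r s 2 ^ 2 := by
  rw [apery1, apery2, apery3]
  have h2 : (2:ℝ) ≤ 2 ^ s := by
    simpa using pow_le_pow_right₀ (by norm_num : (1:ℝ) ≤ 2) hs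
  have h3 : (3:ℝ) ≤ 3 ^ r := by
    simpa using pow_le_pow_right₀ (by norm_num : (1:ℝ) ≤ 3) (hs.trans hsr)
  have h10 : (10:ℝ) ≤ 10 ^ s := by
    simpa using pow_le_pow_right₀ (by norm_num : (1:ℝ) ≤ 10) hs
  have h4 : (4:ℝ) ^ s ≤ 2 / 5 * 10 ^ s :=
    pow_le_eps (m := 1) (by norm_num) (by norm_num) (by norm_num) hs
  have h23 : (2:ℝ) ^ s ≤ 2 / 3 * 3 ^ s :=
    pow_le_eps (m := 1) (by norm_num) (by norm_num) (by norm_num) hs
  have h3' : (3:ℝ) ^ s ≤ 3 ^ r := pow_le_pow_right₀ (by norm_num) hsr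
  have h20 : (20:ℝ) ^ s = 2 ^ s * 10 ^ s := by rw [← mul_pow]; norm_num
  have h36 : ((2:ℝ) ^ r * 3 ^ s) ^ 2 = 9 ^ s * 4 ^ r := by
    rw [mul_pow, ← pow_mul, ← pow_mul, mul_comm r 2, mul_comm s 2, pow_mul, pow_mul]
    norm_num; ring
  set X : ℝ := 3 ^ r * 10 ^ s with hX
  have hX30 : 30 ≤ X := by
    have : (3:ℝ) * 10 ≤ 3 ^ r * 10 ^ s := mul_le_mul h3 h10 (by norm_num) (by positivity)
    linarith
  have e1 : (3:ℝ) ^ r * 4 ^ s ≤ 2 / 5 * X := by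
    calc (3:ℝ) ^ r * 4 ^ s ≤ 3 ^ r * (2 / 5 * 10 ^ s) :=
          mul_le_mul_of_nonneg_left h4 (by positivity)
      _ = _ := by rw [hX]; ring
  have e2 : (20:ℝ) ^ s ≤ 2 / 3 * X := by
    rw [h20]
    calc (2:ℝ) ^ s * 10 ^ s ≤ (2 / 3 * 3 ^ r) * 10 ^ s :=
          mul_le_mul_of_nonneg_right (by linarith) (by positivity)
      _ = _ := by rw [hX]; ring
  have e3 : 1 + (3:ℝ) ^ r * 4 ^ s + X + 20 ^ s ≤ 21 / 10 * X := by linarith
  have e4 : (1:ℝ) + 2 ^ s ≤ 3 / 2 * 2 ^ s := by linarith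
  have e5 : (1 + (2:ℝ) ^ s) * (1 + 3 ^ r * 4 ^ s + X + 20 ^ s) ≤ (3 / 2 * 2 ^ s) * (21 / 10 * X) :=
    mul_le_mul e4 e3 (by positivity) (by positivity)
  have e6 : (3 / 2 * (2:ℝ) ^ s) * (21 / 10 * X) = 63 / 20 * (20 ^ s * 3 ^ r) := by
    rw [h20, hX]; ring
  have e7 : (0:ℝ) < 20 ^ s * 3 ^ r := by positivity
  have e8 : ((2:ℝ) ^ r * 3 ^ s) ^ 2 ≤ (1 + 2 ^ r * 3 ^ s + 6 ^ s) ^ 2 := by
    apply pow_le_pow_left₀ (by positivity)
    have : (0:ℝ) < 6 ^ s := by positivity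
    linarith
  rw [h36] at e8
  calc (1 + (2:ℝ) ^ s) * (1 + 3 ^ r * 4 ^ s + X + 20 ^ s) ≤ 63 / 20 * (20 ^ s * 3 ^ r) := by
        rw [← e6]; exact e5
    _ < 4 * (20 ^ s * 3 ^ r) := by linarith
    _ ≤ 9 ^ s * 4 ^ r := h
    _ ≤ _ := e8

lemma regC {t s : ℕ} (hs : 14 ≤ s) (h : (8:ℝ) * (4 ^ t * 3 ^ s) ≤ 3 ^ t * 5 ^ s) :
    apery (s + t) s 2 * apery (s + t) s 4 < apery (s + t) s 3 ^ 2 := by
  rw [apery2, apery3, apery4]
  have m2 : (2:ℝ) ^ (s + t) * 3 ^ s = 2 ^ t * 6 ^ s := by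
    rw [pow_add, show (6:ℝ) = 2 * 3 by norm_num, mul_pow]; ring
  have m45 : (4:ℝ) ^ (s + t) * 5 ^ s = 4 ^ t * 20 ^ s := by
    rw [pow_add, show (20:ℝ) = 4 * 5 by norm_num, mul_pow]; ring
  have m615 : (6:ℝ) ^ (s + t) * 15 ^ s = 6 ^ t * 90 ^ s := by
    rw [pow_add, show (90:ℝ) = 6 * 15 by norm_num, mul_pow]; ring
  have m435 : (4:ℝ) ^ (s + t) * 35 ^ s = 4 ^ t * 140 ^ s := by
    rw [pow_add, show (140:ℝ) = 4 * 35 by norm_num, mul_pow]; ring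
  have m34 : (3:ℝ) ^ (s + t) * 4 ^ s = 3 ^ t * 12 ^ s := by
    rw [pow_add, show (12:ℝ) = 3 * 4 by norm_num, mul_pow]; ring
  have m310 : (3:ℝ) ^ (s + t) * 10 ^ s = 3 ^ t * 30 ^ s := by
    rw [pow_add, show (30:ℝ) = 3 * 10 by norm_num, mul_pow]; ring
  rw [m2, m45, m615, m435, m34, m310]
  have t1 : (1:ℝ) ≤ 4 ^ t := one_le_pow₀ (by norm_num)
  have t2 : (1:ℝ) ≤ 2 ^ t := one_le_pow₀ (by norm_num)
  -- factor bounds
  have f1 : (1:ℝ) ^ s ≤ 1 / 1000 * 6 ^ s :=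
    pow_le_eps (m := 14) (by norm_num) (by norm_num) (by norm_num) hs
  rw [one_pow] at f1
  have f2 : (1:ℝ) ^ s ≤ 1 / 10000 * 140 ^ s :=
    pow_le_eps (m := 14) (by norm_num) (by norm_num) (by norm_num) hs
  rw [one_pow] at f2
  have f3 : (20:ℝ) ^ s ≤ 1 / 10000 * 140 ^ s :=
    pow_le_eps (m := 14) (by norm_num) (by norm_num) (by norm_num) hs
  have f4 : (70:ℝ) ^ s ≤ 1 / 10000 * 140 ^ s :=
    pow_le_eps (m := 14) (by norm_num) (by norm_num) (by norm_num) hs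
  have p6 : (0:ℝ) < 6 ^ s := by positivity
  have p140 : (0:ℝ) < 140 ^ s := by positivity
  have p90 : (0:ℝ) < 6 ^ t * 90 ^ s := by positivity
  have g1 : 1 + (2:ℝ) ^ t * 6 ^ s + 6 ^ s ≤ 1001 / 1000 * ((1 + 2 ^ t) * 6 ^ s) := by
    nlinarith [mul_nonneg (sub_nonneg.2 t2) p6.le]
  have g2 : 1 + (4:ℝ) ^ t * 20 ^ s + 6 ^ t * 90 ^ s + 4 ^ t * 140 ^ s + 70 ^ s
      ≤ 1001 / 1000 * (6 ^ t * 90 ^ s + 4 ^ t * 140 ^ s) := by
    have q1 : (140:ℝ) ^ s ≤ 4 ^ t * 140 ^ s := le_mul_of_one_le_left p140.le t1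
    have q2 : (4:ℝ) ^ t * 20 ^ s ≤ 4 ^ t * (1 / 10000 * 140 ^ s) :=
      mul_le_mul_of_nonneg_left f3 (by positivity)
    have q3 : (4:ℝ) ^ t * (1 / 10000 * 140 ^ s) = 1 / 10000 * (4 ^ t * 140 ^ s) := by ring
    rw [q3] at q2
    linarith
  have g3 : (1 + (2:ℝ) ^ t * 6 ^ s + 6 ^ s) *
      (1 + (4:ℝ) ^ t * 20 ^ s + 6 ^ t * 90 ^ s + 4 ^ t * 140 ^ s + 70 ^ s)
      ≤ (1001 / 1000 * ((1 + 2 ^ t) * 6 ^ s)) *
        (1001 / 1000 * (6 ^ t * 90 ^ s + 4 ^ t * 140 ^ s)) :=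
    mul_le_mul g1 g2 (by positivity) (by positivity)
  have s540 : (540:ℝ) ^ s = 6 ^ s * 90 ^ s := by rw [← mul_pow]; norm_num
  have s840 : (840:ℝ) ^ s = 6 ^ s * 140 ^ s := by rw [← mul_pow]; norm_num
  have t12 : (12:ℝ) ^ t = 2 ^ t * 6 ^ t := by rw [← mul_pow]; norm_num
  have t8 : (8:ℝ) ^ t = 2 ^ t * 4 ^ t := by rw [← mul_pow]; norm_num
  have g4 : (1001 / 1000 * ((1 + (2:ℝ) ^ t) * 6 ^ s)) *
        (1001 / 1000 * (6 ^ t * 90 ^ s + 4 ^ t * 140 ^ s))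
      = 1002001 / 1000000 * (6 ^ t * 540 ^ s + 4 ^ t * 840 ^ s + 12 ^ t * 540 ^ s
        + 8 ^ t * 840 ^ s) := by
    rw [s540, s840, t12, t8]; ring
  set M : ℝ := 9 ^ t * 900 ^ s with hM
  have hMpos : 0 < M := by positivity
  have k540 : (540:ℝ) ^ s ≤ 1 / 1000 * 900 ^ s :=
    pow_le_eps (m := 14) (by norm_num) (by norm_num) (by norm_num) hs
  have k840 : (840:ℝ) ^ s ≤ 381 / 1000 * 900 ^ s :=
    pow_le_eps (m := 14) (by norm_num) (by norm_num) (by norm_num) hs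
  have l6 : (6:ℝ) ^ t ≤ 9 ^ t := pow_le_pow_left₀ (by norm_num) (by norm_num) t
  have l4 : (4:ℝ) ^ t ≤ 9 ^ t := pow_le_pow_left₀ (by norm_num) (by norm_num) t
  have l8 : (8:ℝ) ^ t ≤ 9 ^ t := pow_le_pow_left₀ (by norm_num) (by norm_num) t
  have i1 : (6:ℝ) ^ t * 540 ^ s ≤ 1 / 1000 * M := by
    calc (6:ℝ) ^ t * 540 ^ s ≤ 9 ^ t * (1 / 1000 * 900 ^ s) :=
          mul_le_mul l6 k540 (by positivity) (by positivity)
      _ = _ := by rw [hM]; ring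
  have i2 : (4:ℝ) ^ t * 840 ^ s ≤ 381 / 1000 * M := by
    calc (4:ℝ) ^ t * 840 ^ s ≤ 9 ^ t * (381 / 1000 * 900 ^ s) :=
          mul_le_mul l4 k840 (by positivity) (by positivity)
      _ = _ := by rw [hM]; ring
  have i4 : (8:ℝ) ^ t * 840 ^ s ≤ 381 / 1000 * M := by
    calc (8:ℝ) ^ t * 840 ^ s ≤ 9 ^ t * (381 / 1000 * 900 ^ s) :=
          mul_le_mul l8 k840 (by positivity) (by positivity)
      _ = _ := by rw [hM]; ring
  have i3 : (12:ℝ) ^ t * 540 ^ s ≤ 1 / 8 * M := by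
    have e1 : (12:ℝ) ^ t * 540 ^ s = (4 ^ t * 3 ^ s) * (3 ^ t * 180 ^ s) := by
      rw [show (12:ℝ) = 4 * 3 by norm_num, show (540:ℝ) = 3 * 180 by norm_num, mul_pow, mul_pow]
      ring
    have e2 : M = (3 ^ t * 5 ^ s) * (3 ^ t * 180 ^ s) := by
      rw [hM, show (9:ℝ) = 3 * 3 by norm_num, show (900:ℝ) = 5 * 180 by norm_num, mul_pow, mul_pow]
      ring
    have e3 := mul_le_mul_of_nonneg_right h (by positivity : (0:ℝ) ≤ 3 ^ t * 180 ^ s)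
    rw [e1, e2]
    linarith
  have i5 : M ≤ (1 + 3 ^ t * 12 ^ s + 3 ^ t * 30 ^ s + 20 ^ s) ^ 2 := by
    have e1 : M = (3 ^ t * 30 ^ s) ^ 2 := by
      rw [hM, show (9:ℝ) = 3 * 3 by norm_num, show (900:ℝ) = 30 * 30 by norm_num, mul_pow, mul_pow]
      ring
    rw [e1]
    apply pow_le_pow_left₀ (by positivity)
    have : (0:ℝ) < 3 ^ t * 12 ^ s := by positivity
    have : (0:ℝ) < 20 ^ s := by positivity
    linarith
  refine lt_of_le_of_lt g3 (lt_of_lt_of_le ?_ i5)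
  rw [g4]
  linarith

lemma regB {u s : ℕ} (hs : 14 ≤ s) (hu : u ≤ 2 * s) :
    apery (2 * s + u) s 4 * apery (2 * s + u) s 6 < apery (2 * s + u) s 5 ^ 2 := by
  rw [apery4, apery5, apery6]
  have key : ∀ a b : ℝ, a ^ (2 * s + u) * b ^ s = a ^ u * (a ^ 2 * b) ^ s := by
    intro a b
    rw [pow_add, pow_mul, mul_pow]; ring
  rw [key 4 5, key 6 15, key 4 35, key 5 6, key 10 21, key 10 56, key 5 126, key 6 7, key 15 28,
    key 20 84, key 15 210, key 6 462]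
  norm_num only
  have t4 : (1:ℝ) ≤ 4 ^ u := one_le_pow₀ (by norm_num)
  have t15 : (1:ℝ) ≤ 15 ^ u := one_le_pow₀ (by norm_num)
  have l615 : (6:ℝ) ^ u ≤ 15 ^ u := pow_le_pow_left₀ (by norm_num) (by norm_num) u
  have g1 : 1 + (4:ℝ) ^ u * 80 ^ s + 6 ^ u * 540 ^ s + 4 ^ u * 560 ^ s + 70 ^ s
      ≤ 1001 / 1000 * (6 ^ u * 540 ^ s + 4 ^ u * 560 ^ s) := by
    have f2 : (1:ℝ) ^ s ≤ 1 / 10000 * 560 ^ s :=
      pow_le_eps (m := 14) (by norm_num) (by norm_num) (by norm_num) hs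
    rw [one_pow] at f2
    have f3 : (80:ℝ) ^ s ≤ 1 / 10000 * 560 ^ s :=
      pow_le_eps (m := 14) (by norm_num) (by norm_num) (by norm_num) hs
    have f4 : (70:ℝ) ^ s ≤ 1 / 10000 * 560 ^ s :=
      pow_le_eps (m := 14) (by norm_num) (by norm_num) (by norm_num) hs
    have p : (0:ℝ) < 560 ^ s := by positivity
    have p' : (0:ℝ) < 6 ^ u * 540 ^ s := by positivity
    have q1 : (560:ℝ) ^ s ≤ 4 ^ u * 560 ^ s := le_mul_of_one_le_left p.le t4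
    have q2 : (4:ℝ) ^ u * 80 ^ s ≤ 4 ^ u * (1 / 10000 * 560 ^ s) :=
      mul_le_mul_of_nonneg_left f3 (by positivity)
    have q3 : (4:ℝ) ^ u * (1 / 10000 * 560 ^ s) = 1 / 10000 * (4 ^ u * 560 ^ s) := by ring
    rw [q3] at q2
    linarith
  have g2 : 1 + (6:ℝ) ^ u * 252 ^ s + 15 ^ u * 6300 ^ s + 20 ^ u * 33600 ^ s + 15 ^ u * 47250 ^ s
      + 6 ^ u * 16632 ^ s + 924 ^ s ≤ 1001 / 1000 * (20 ^ u * 33600 ^ s + 15 ^ u * 47250 ^ s) := by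
    have f1 : (1:ℝ) ^ s ≤ 1 / 10000 * 47250 ^ s :=
      pow_le_eps (m := 14) (by norm_num) (by norm_num) (by norm_num) hs
    rw [one_pow] at f1
    have f2 : (252:ℝ) ^ s ≤ 1 / 10000 * 47250 ^ s :=
      pow_le_eps (m := 14) (by norm_num) (by norm_num) (by norm_num) hs
    have f3 : (6300:ℝ) ^ s ≤ 1 / 10000 * 47250 ^ s :=
      pow_le_eps (m := 14) (by norm_num) (by norm_num) (by norm_num) hs
    have f4 : (16632:ℝ) ^ s ≤ 1 / 10000 * 47250 ^ s :=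
      pow_le_eps (m := 14) (by norm_num) (by norm_num) (by norm_num) hs
    have f5 : (924:ℝ) ^ s ≤ 1 / 10000 * 47250 ^ s :=
      pow_le_eps (m := 14) (by norm_num) (by norm_num) (by norm_num) hs
    have p : (0:ℝ) < 47250 ^ s := by positivity
    have p' : (0:ℝ) < 20 ^ u * 33600 ^ s := by positivity
    have q1 : (47250:ℝ) ^ s ≤ 15 ^ u * 47250 ^ s := le_mul_of_one_le_left p.le t15
    have q2 : (6:ℝ) ^ u * 252 ^ s ≤ 15 ^ u * (1 / 10000 * 47250 ^ s) :=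
      mul_le_mul l615 f2 (by positivity) (by positivity)
    have q3 : (15:ℝ) ^ u * 6300 ^ s ≤ 15 ^ u * (1 / 10000 * 47250 ^ s) :=
      mul_le_mul_of_nonneg_left f3 (by positivity)
    have q4 : (6:ℝ) ^ u * 16632 ^ s ≤ 15 ^ u * (1 / 10000 * 47250 ^ s) :=
      mul_le_mul l615 f4 (by positivity) (by positivity)
    have q5 : (15:ℝ) ^ u * (1 / 10000 * 47250 ^ s) = 1 / 10000 * (15 ^ u * 47250 ^ s) := by ring
    rw [q5] at q2 q3 q4
    linarith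
  have g3 := mul_le_mul g1 g2 (by positivity) (by positivity)
  set M : ℝ := 100 ^ u * 31360000 ^ s with hM
  have hMpos : 0 < M := by positivity
  have g4 : (1001 / 1000 * ((6:ℝ) ^ u * 540 ^ s + 4 ^ u * 560 ^ s)) *
      (1001 / 1000 * (20 ^ u * 33600 ^ s + 15 ^ u * 47250 ^ s))
      = 1002001 / 1000000 * (120 ^ u * 18144000 ^ s + 90 ^ u * 25515000 ^ s
        + 80 ^ u * 18816000 ^ s + 60 ^ u * 26460000 ^ s) := by
    rw [show (120:ℝ) = 6 * 20 by norm_num, show (18144000:ℝ) = 540 * 33600 by norm_num,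
      show (90:ℝ) = 6 * 15 by norm_num, show (25515000:ℝ) = 540 * 47250 by norm_num,
      show (80:ℝ) = 4 * 20 by norm_num, show (18816000:ℝ) = 560 * 33600 by norm_num,
      show (60:ℝ) = 4 * 15 by norm_num, show (26460000:ℝ) = 560 * 47250 by norm_num]
    simp only [mul_pow]
    ring
  have i1 : (120:ℝ) ^ u * 18144000 ^ s ≤ 80 / 1000 * M := by
    have e1 : (120:ℝ) ^ u = (6 / 5) ^ u * 100 ^ u := by rw [← mul_pow]; norm_num
    have e2 : ((6:ℝ) / 5) ^ u ≤ (36 / 25) ^ s := by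
      calc ((6:ℝ) / 5) ^ u ≤ (6 / 5) ^ (2 * s) := pow_le_pow_right₀ (by norm_num) hu
        _ = _ := by rw [pow_mul]; norm_num
    have e3 : ((36:ℝ) / 25 * 18144000) ^ s ≤ 80 / 1000 * 31360000 ^ s :=
      pow_le_eps (m := 14) (by norm_num) (by norm_num) (by norm_num) hs
    rw [e1]
    calc ((6:ℝ) / 5) ^ u * 100 ^ u * 18144000 ^ s
        ≤ (36 / 25) ^ s * 100 ^ u * 18144000 ^ s := by
          apply mul_le_mul_of_nonneg_right _ (by positivity)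
          exact mul_le_mul_of_nonneg_right e2 (by positivity)
      _ = 100 ^ u * (36 / 25 * 18144000) ^ s := by rw [mul_pow]; ring
      _ ≤ 100 ^ u * (80 / 1000 * 31360000 ^ s) := mul_le_mul_of_nonneg_left e3 (by positivity)
      _ = _ := by rw [hM]; ring
  have i2 : (90:ℝ) ^ u * 25515000 ^ s ≤ 60 / 1000 * M := by
    calc (90:ℝ) ^ u * 25515000 ^ s ≤ 100 ^ u * (60 / 1000 * 31360000 ^ s) :=
          mul_le_mul (pow_le_pow_left₀ (by norm_num) (by norm_num) u)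
            (pow_le_eps (m := 14) (by norm_num) (by norm_num) (by norm_num) hs)
            (by positivity) (by positivity)
      _ = _ := by rw [hM]; ring
  have i3 : (80:ℝ) ^ u * 18816000 ^ s ≤ 1 / 1000 * M := by
    calc (80:ℝ) ^ u * 18816000 ^ s ≤ 100 ^ u * (1 / 1000 * 31360000 ^ s) :=
          mul_le_mul (pow_le_pow_left₀ (by norm_num) (by norm_num) u)
            (pow_le_eps (m := 14) (by norm_num) (by norm_num) (by norm_num) hs)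
            (by positivity) (by positivity)
      _ = _ := by rw [hM]; ring
  have i4 : (60:ℝ) ^ u * 26460000 ^ s ≤ 100 / 1000 * M := by
    calc (60:ℝ) ^ u * 26460000 ^ s ≤ 100 ^ u * (100 / 1000 * 31360000 ^ s) :=
          mul_le_mul (pow_le_pow_left₀ (by norm_num) (by norm_num) u)
            (pow_le_eps (m := 14) (by norm_num) (by norm_num) (by norm_num) hs)
            (by positivity) (by positivity)
      _ = _ := by rw [hM]; ring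
  have i5 : M ≤ (1 + (5:ℝ) ^ u * 150 ^ s + 10 ^ u * 2100 ^ s + 10 ^ u * 5600 ^ s
      + 5 ^ u * 3150 ^ s + 252 ^ s) ^ 2 := by
    have e1 : M = (10 ^ u * 5600 ^ s) ^ 2 := by
      rw [hM, show (100:ℝ) = 10 * 10 by norm_num,
        show (31360000:ℝ) = 5600 * 5600 by norm_num, mul_pow, mul_pow]
      ring
    rw [e1]
    apply pow_le_pow_left₀ (by positivity)
    have h1 : (0:ℝ) < 5 ^ u * 150 ^ s := by positivity
    have h2 : (0:ℝ) < 10 ^ u * 2100 ^ s := by positivity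
    have h3 : (0:ℝ) < 5 ^ u * 3150 ^ s := by positivity
    have h4 : (0:ℝ) < 252 ^ s := by positivity
    linarith
  refine lt_of_le_of_lt g3 (lt_of_lt_of_le ?_ i5)
  rw [g4]
  linarith

/-- for `s ≥ 14`, `r ≥ s`, log-convexity fails -/
theorem big_s {r s : ℕ} (hs : 14 ≤ s) (hsr : s ≤ r) :
    ∃ n : ℕ, apery r s n * apery r s (n + 2) < apery r s (n + 1) ^ 2 := by
  obtain ⟨t, rfl⟩ := Nat.exists_eq_add_of_le hsr
  by_cases hA : (4:ℝ) * (20 ^ s * 3 ^ (s + t)) ≤ 9 ^ s * 4 ^ (s + t)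
  · exact ⟨1, regA (by omega) hsr hA⟩
  by_cases hC : (8:ℝ) * (4 ^ t * 3 ^ s) ≤ 3 ^ t * 5 ^ s
  · exact ⟨2, regC hs hC⟩
  have hA' : (4:ℝ) ^ t * 3 ^ s < 4 * (5 ^ s * 3 ^ t) := by
    have h1 := not_le.1 hA
    have e1 : (9:ℝ) ^ s * 4 ^ (s + t) = (4 ^ t * 3 ^ s) * 12 ^ s := by
      rw [pow_add, show (9:ℝ) = 3 * 3 by norm_num, show (12:ℝ) = 3 * 4 by norm_num, mul_pow,
        mul_pow]; ring
    have e2 : (4:ℝ) * (20 ^ s * 3 ^ (s + t)) = (4 * (5 ^ s * 3 ^ t)) * 12 ^ s := by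
      rw [pow_add, show (20:ℝ) = 5 * 4 by norm_num, show (12:ℝ) = 3 * 4 by norm_num, mul_pow,
        mul_pow]; ring
    rw [e1, e2] at h1
    exact lt_of_mul_lt_mul_right h1 (by positivity)
  have hC' := not_le.1 hC
  -- s ≤ t
  have hst : s ≤ t := by
    by_contra hcon
    have hts : t ≤ s := by omega
    obtain ⟨d, rfl⟩ := Nat.exists_eq_add_of_le hts
    -- 3^t 5^(t+d) < 8 * 4^t 3^(t+d)
    have e1 : (3:ℝ) ^ t * 5 ^ (t + d) = 15 ^ t * 5 ^ d := by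
      rw [pow_add, show (15:ℝ) = 3 * 5 by norm_num, mul_pow]; ring
    have e2 : (8:ℝ) * (4 ^ t * 3 ^ (t + d)) = 8 * (12 ^ t * 3 ^ d) := by
      rw [pow_add, show (12:ℝ) = 4 * 3 by norm_num, mul_pow]; ring
    rw [e1, e2] at hC'
    have e3 : (8:ℝ) * (12 ^ t * 3 ^ d) ≤ 15 ^ t * 5 ^ d := by
      have f1 : (12:ℝ) ^ (t + d) ≤ 1 / 8 * 15 ^ (t + d) :=
        pow_le_eps (m := 14) (by norm_num) (by norm_num) (by norm_num) hs
      rw [pow_add, pow_add] at f1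
      -- 8 * 12^t 12^d ≤ 15^t 15^d
      have f2 : (3:ℝ) ^ d * 15 ^ d ≤ 12 ^ d * 5 ^ d := by
        rw [← mul_pow, ← mul_pow]
        exact pow_le_pow_left₀ (by norm_num) (by norm_num) d
      have p15 : (0:ℝ) < 15 ^ d := by positivity
      have f3 : (8 * ((12:ℝ) ^ t * 3 ^ d)) * 15 ^ d ≤ (15 ^ t * 5 ^ d) * 15 ^ d := by
        calc (8 * ((12:ℝ) ^ t * 3 ^ d)) * 15 ^ d = 8 * 12 ^ t * (3 ^ d * 15 ^ d) := by ring
          _ ≤ 8 * 12 ^ t * (12 ^ d * 5 ^ d) := mul_le_mul_of_nonneg_left f2 (by positivity)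
          _ = (8 * (12 ^ t * 12 ^ d)) * 5 ^ d := by ring
          _ ≤ (15 ^ t * 15 ^ d) * 5 ^ d := by
              apply mul_le_mul_of_nonneg_right _ (by positivity)
              linarith
          _ = _ := by ring
      exact le_of_mul_le_mul_right f3 p15
    linarith
  -- t ≤ 3 s
  have hts : t ≤ 3 * s := by
    by_contra hcon
    have h3 : 3 * s ≤ t := by omega
    obtain ⟨d, rfl⟩ := Nat.exists_eq_add_of_le h3
    have e1 : (4:ℝ) ^ (3 * s + d) * 3 ^ s = 4 ^ d * 192 ^ s := by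
      rw [pow_add, pow_mul, show (192:ℝ) = 4 ^ 3 * 3 by norm_num, mul_pow]; ring
    have e2 : (4:ℝ) * (5 ^ s * 3 ^ (3 * s + d)) = 4 * (3 ^ d * 135 ^ s) := by
      rw [pow_add, pow_mul, show (135:ℝ) = 3 ^ 3 * 5 by norm_num, mul_pow]; ring
    rw [e1, e2] at hA'
    have f1 : (135:ℝ) ^ s ≤ 1 / 4 * 192 ^ s :=
      pow_le_eps (m := 14) (by norm_num) (by norm_num) (by norm_num) hs
    have f2 : (3:ℝ) ^ d ≤ 4 ^ d := pow_le_pow_left₀ (by norm_num) (by norm_num) d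
    have f3 : (3:ℝ) ^ d * 135 ^ s ≤ 4 ^ d * (1 / 4 * 192 ^ s) :=
      mul_le_mul f2 f1 (by positivity) (by positivity)
    have f4 : (4:ℝ) ^ d * (1 / 4 * 192 ^ s) = 1 / 4 * (4 ^ d * 192 ^ s) := by ring
    rw [f4] at f3
    linarith
  obtain ⟨u, rfl⟩ := Nat.exists_eq_add_of_le hst
  refine ⟨4, ?_⟩
  have e : s + (s + u) = 2 * s + u := by ring
  rw [e]
  exact regB hs (by omega)

/-- for `1 ≤ s ≤ 13`, `r ≥ 42`, log-convexity fails -/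
theorem big_r {r s : ℕ} (hs1 : 1 ≤ s) (hs : s ≤ 13) (hr : 42 ≤ r) :
    apery r s 1 * apery r s 3 < apery r s 2 ^ 2 := by
  refine regA hs1 (by omega) ?_
  have h1 : ((20:ℝ) / 9) ^ s ≤ (20 / 9) ^ 13 := pow_le_pow_right₀ (by norm_num) hs
  have h2 : ((4:ℝ) / 3) ^ 42 ≤ (4 / 3) ^ r := pow_le_pow_right₀ (by norm_num) hr
  have h3 : (4:ℝ) * (20 / 9) ^ 13 ≤ (4 / 3) ^ 42 := by norm_num
  have h4 : (4:ℝ) * (20 / 9) ^ s ≤ (4 / 3) ^ r := by linarith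
  have e1 : (4:ℝ) * (20 ^ s * 3 ^ r) = (4 * (20 / 9) ^ s) * (9 ^ s * 3 ^ r) := by
    rw [show (20:ℝ) ^ s = (20 / 9) ^ s * 9 ^ s by rw [← mul_pow]; norm_num]; ring
  have e2 : (9:ℝ) ^ s * 4 ^ r = (4 / 3) ^ r * (9 ^ s * 3 ^ r) := by
    rw [show (4:ℝ) ^ r = (4 / 3) ^ r * 3 ^ r by rw [← mul_pow]; norm_num]; ring
  rw [e1, e2]
  exact mul_le_mul_of_nonneg_right h4 (by positivity)

end H439R3.Ap
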